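import Pool.Agent.Helper158.PD.Fin

set_option autoImplicit false

/-!
# The Hausmann-Weinberger invariant of `ℤ⁶ * ℤ⁶` is at least `10`

Closed connected topological 4-manifolds (orientable or not) with fundamental group `ℤ⁶ * ℤ⁶` have
Euler characteristic at least `10`.
-/

namespace Pool.Agent.Results.MP_e039bb_gt.AtLeastTen

open Pool.Agent.Helper158.PD

universe u

variable (X : Type u) [TopologicalSpace X]

/-- Singular `n`-simplices of a space `X`: continuous maps from the standard `n`-simplex. -/
abbrev Simplex (n : ℕ) : Type u := C(stdSimplex ℝ (Fin (n + 1)), X)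

variable {X} in
/-- The `i`-th face of a singular `(n+1)`-simplex: precomposition with the affine inclusion of the
standard `n`-simplex as the face opposite to the `i`-th vertex. -/
noncomputable def face (n : ℕ) (i : Fin (n + 2)) (σ : Simplex X (n + 1)) : Simplex X n :=
  σ.comp ⟨stdSimplex.map i.succAbove, stdSimplex.continuous_map _⟩

/-- The coboundary of singular cochains with coefficients in `ℤ/2`:
`(δ f)(σ) = ∑ i, f (i-th face of σ)`. -/
noncomputable def coboundary (n : ℕ) :
    (Simplex X n → ZMod 2) →ₗ[ZMod 2] (Simplex X (n + 1) → ZMod 2) where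
  toFun f σ := ∑ i : Fin (n + 2), f (face n i σ)
  map_add' f g := by
    funext σ
    exact Finset.sum_add_distrib
  map_smul' r f := by
    funext σ
    exact (Finset.smul_sum (r := r) (f := fun i => f (face n i σ))).symm

/-- Singular `n`-cocycles mod 2. -/
noncomputable def cocycles (n : ℕ) : Submodule (ZMod 2) (Simplex X n → ZMod 2) :=
  LinearMap.ker (coboundary X n)

/-- Singular `n`-coboundaries mod 2: zero for `n = 0`, the image of the coboundary otherwise. -/
noncomputable def coboundaries : ∀ n : ℕ, Submodule (ZMod 2) (Simplex X n → ZMod 2)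
  | 0 => ⊥
  | (n + 1) => LinearMap.range (coboundary X n)

/-- Singular cohomology `H^n(X; ℤ/2)`: cocycles modulo coboundaries. -/
abbrev Cohomology (n : ℕ) : Type u :=
  cocycles X n ⧸ (coboundaries X n).submoduleOf (cocycles X n)

/-- The Euler characteristic `∑ n, (-1)^n dim H^n(X; ℤ/2)`. -/
noncomputable def eulerChar : ℤ :=
  ∑ᶠ n : ℕ, (-1 : ℤ) ^ n * (Module.finrank (ZMod 2) (Cohomology X n) : ℤ)

/-- The free abelian group `ℤ⁶`, written multiplicatively. -/
abbrev Z6 : Type := Multiplicative (Fin 6 → ℤ)

theorem coboundary_eq (n : ℕ) : coboundary X n = dl n := by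
  apply LinearMap.ext
  intro f
  funext σ
  exact (dl_apply n f σ).symm

theorem cocycles_eq (n : ℕ) : cocycles X n = Cy X n := by
  rw [cocycles, coboundary_eq]
  rfl

theorem coboundaries_eq (n : ℕ) : coboundaries X n = Bd X n := by
  cases n with
  | zero => rfl
  | succ n =>
    change LinearMap.range (coboundary X n) = LinearMap.range (dl n)
    rw [coboundary_eq]

theorem eulerChar_eq : eulerChar X = euler X := by
  unfold eulerChar euler
  congr 1
  funext n
  have : Module.finrank (ZMod 2) (Cohomology X n) = Module.finrank F2 (Hc X n) := by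
    unfold Cohomology Hc
    rw [cocycles_eq, coboundaries_eq]
  rw [this]

theorem finite_cohomology (M : Type u) [TopologicalSpace M] [T2Space M] [CompactSpace M]
    [ChartedSpace (EuclideanSpace ℝ (Fin 4)) M] (n : ℕ) :
    Module.Finite (ZMod 2) (Cohomology M n) := by
  obtain ⟨I, hI, hnd, hvan, hfin⟩ := poincare M 3
  have h : Module.Finite F2 (Hc M n) := hfin n
  have key : Cohomology M n = Hc M n ∧ Module.Finite (ZMod 2) (Cohomology M n) := by
    unfold Cohomology
    rw [cocycles_eq, coboundaries_eq]
    exact ⟨rfl, h⟩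
  exact key.2

theorem vanishing_cohomology (M : Type u) [TopologicalSpace M] [T2Space M] [CompactSpace M]
    [ChartedSpace (EuclideanSpace ℝ (Fin 4)) M] (n : ℕ) (hn : 4 < n) :
    Subsingleton (Cohomology M n) := by
  obtain ⟨I, hI, hnd, hvan, hfin⟩ := poincare M 3
  have h : cocycles M n = coboundaries M n := by
    rw [cocycles_eq, coboundaries_eq]
    exact hvan n hn
  have hs : ∀ x : Cohomology M n, x = 0 := by
    intro x
    obtain ⟨a, rfl⟩ := Submodule.Quotient.mk_surjective _ x
    rw [Submodule.Quotient.mk_eq_zero]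
    exact (h ▸ a.2 : (a : Simplex M n → ZMod 2) ∈ coboundaries M n)
  exact ⟨fun x y => by rw [hs x, hs y]⟩

/-- **Every closed connected topological 4-manifold `M` with `π₁(M) ≅ ℤ⁶ * ℤ⁶` has
`χ(M) ≥ 10`.** Its mod 2 cohomology is finite dimensional in every degree and zero above degree
four, so the sum defining `χ(M)` is an honest finite sum of honest dimensions. -/
theorem result (M : Type u) [TopologicalSpace M] [T2Space M] [CompactSpace M] [ConnectedSpace M]
    [ChartedSpace (EuclideanSpace ℝ (Fin 4)) M] (x₀ : M)
    (h : Nonempty (FundamentalGroup M x₀ ≃* Monoid.Coprod Z6 Z6)) :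
    (∀ n : ℕ, Module.Finite (ZMod 2) (Cohomology M n)) ∧
      (∀ n : ℕ, 4 < n → Subsingleton (Cohomology M n)) ∧
      10 ≤ eulerChar M := by
  obtain ⟨e⟩ := h
  refine ⟨finite_cohomology M, vanishing_cohomology M, ?_⟩
  rw [eulerChar_eq]
  exact main M x₀ e

end Pool.Agent.Results.MP_e039bb_gt.AtLeastTen
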